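import Mathlib

namespace Pool.Agent.Results.MP_ec0ea5_pr.Unique
open MeasureTheory ProbabilityTheory Set Filter
open scoped ENNReal NNReal Topology

/-- `E X^k` -/
noncomputable def mom (μ : Measure ℝ) (k : ℕ) : ℝ≥0∞ := ∫⁻ x, ENNReal.ofReal (x ^ k) ∂μ

/-- the `ψ`-power-bias law: `∑ ψ_k x^k μ(dx) / E X^k` -/
noncomputable def bias (ψ : PMF ℕ) (μ : Measure ℝ) : Measure ℝ :=
  Measure.sum fun k => (ψ k / mom μ k) • μ.withDensity fun x => ENNReal.ofReal (x ^ k)

/-- `μ` is the law of a solution of `L(X) = L(V_w X^(ψ))` -/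
def Sol (w : ℝ) (ψ : PMF ℕ) (μ : Measure ℝ) : Prop :=
  IsProbabilityMeasure μ ∧ μ (Iic 0) = 0 ∧ (∀ k, ψ k ≠ 0 → mom μ k ≠ ∞) ∧
    μ = ((betaMeasure w 1).prod (bias ψ μ)).map fun p => p.1 * p.2

lemma comp (μ ν : Measure ℝ) [IsProbabilityMeasure μ] [IsProbabilityMeasure ν]
    [NullSingletonClass μ] [NullSingletonClass ν] {U : Set ℝ} (hU : IsOpen U)
    (L : ∀ a b, a < b → a ∉ U → Ioo a b ⊆ U → μ.real (Iic a) ≤ ν.real (Iic a))
    (R : ∀ a b, a < b → b ∉ U → Ioo a b ⊆ U → ν.real (Iic b) ≤ μ.real (Iic b)) : ν U ≤ μ U := by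
  have e : U = ⋃₀ (connectedComponentIn U '' U) := by
    refine Subset.antisymm (fun x hx => ⟨_, ⟨x, hx, rfl⟩, mem_connectedComponentIn hx⟩) ?_
    rintro y ⟨_, ⟨x, -, rfl⟩, hy⟩; exact connectedComponentIn_subset _ _ hy
  have hd : (connectedComponentIn U '' U).Pairwise Disjoint := by
    rintro _ ⟨x, -, rfl⟩ _ ⟨y, -, rfl⟩ h
    exact disjoint_left.2 fun z h1 h2 =>
      h ((connectedComponentIn_eq h1).trans (connectedComponentIn_eq h2).symm)
  have ho : ∀ J ∈ connectedComponentIn U '' U, IsOpen J := by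
    rintro _ ⟨x, -, rfl⟩; exact hU.connectedComponentIn
  have hc : (connectedComponentIn U '' U).Countable :=
    PairwiseDisjoint.countable_of_isOpen (s := id) hd ho
      (by rintro _ ⟨x, hx, rfl⟩; exact ⟨x, mem_connectedComponentIn hx⟩)
  rw [e, measure_sUnion hc hd fun J h => (ho J h).measurableSet,
    measure_sUnion hc hd fun J h => (ho J h).measurableSet]
  refine ENNReal.tsum_le_tsum ?_
  rintro ⟨J, x, hx, hJ⟩
  have h0 := ho J ⟨x, hx, hJ⟩
  have hxJ : x ∈ J := hJ ▸ mem_connectedComponentIn hx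
  have hJU : J ⊆ U := hJ ▸ connectedComponentIn_subset _ _
  have hoc : J.OrdConnected := hJ ▸ isPreconnected_connectedComponentIn.ordConnected
  have hmax : ∀ a b, x ∈ Icc a b → Icc a b ⊆ U → Icc a b ⊆ J := fun a b h1 h2 =>
    hJ ▸ isPreconnected_Icc.subset_connectedComponentIn h1 h2
  have h1 : μ.real (Jᶜ ∩ Iic x) ≤ ν.real (Jᶜ ∩ Iic x) := by
    rcases (Jᶜ ∩ Iic x).eq_empty_or_nonempty with h | h
    · simp [h]
    obtain ⟨a, ⟨ha, hax⟩, hs⟩ : ∃ a, IsGreatest (Jᶜ ∩ Iic x) a := ⟨_, (h0.isClosed_compl.inter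
      isClosed_Iic).isGreatest_csSup h ⟨x, fun _ h => h.2⟩⟩
    have h2 : Ioc a x ⊆ J := fun y hy => by_contra fun h => not_le.2 hy.1 (hs ⟨h, hy.2⟩)
    rw [show Jᶜ ∩ Iic x = Iic a from Subset.antisymm hs fun y hy =>
      ⟨fun h => ha (hoc.out h hxJ ⟨hy, hax⟩), le_trans (b := a) hy hax⟩]
    refine L a x (lt_of_le_of_ne hax fun h => ha (h ▸ hxJ)) (fun h => ha (hmax a x ⟨hax, le_rfl⟩
      (fun y hy => ?_) ⟨le_rfl, hax⟩)) (Ioo_subset_Ioc_self.trans (h2.trans hJU))
    exact hy.1.eq_or_lt.elim (fun e => e ▸ h) fun e => hJU (h2 ⟨e, hy.2⟩)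
  have h2 : μ.real (Jᶜ ∩ Ici x) ≤ ν.real (Jᶜ ∩ Ici x) := by
    rcases (Jᶜ ∩ Ici x).eq_empty_or_nonempty with h | h
    · simp [h]
    obtain ⟨a, ⟨ha, hax⟩, hs⟩ : ∃ a, IsLeast (Jᶜ ∩ Ici x) a := ⟨_, (h0.isClosed_compl.inter
      isClosed_Ici).isLeast_csInf h ⟨x, fun _ h => h.2⟩⟩
    have h2 : Ico x a ⊆ J := fun y hy => by_contra fun h => not_le.2 hy.2 (hs ⟨h, hy.1⟩)
    rw [show Jᶜ ∩ Ici x = Ici a from Subset.antisymm hs fun y hy =>
      ⟨fun h => ha (hoc.out hxJ h ⟨hax, hy⟩), le_trans (b := a) hax hy⟩,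
      ← measureReal_congr Ioi_ae_eq_Ici, ← measureReal_congr Ioi_ae_eq_Ici, ← compl_Iic,
      probReal_compl_eq_one_sub measurableSet_Iic, probReal_compl_eq_one_sub measurableSet_Iic]
    refine sub_le_sub_left (R x a (lt_of_le_of_ne hax fun h => ha (h ▸ hxJ)) (fun h => ha (hmax x a
      ⟨le_rfl, hax⟩ (fun y hy => ?_) ⟨hax, le_rfl⟩)) (Ioo_subset_Ico_self.trans (h2.trans hJU))) 1
    exact hy.2.eq_or_lt.elim (fun e => e ▸ h) fun e => hJU (h2 ⟨hy.1, e⟩)
  have h3 : ∀ (ρ : Measure ℝ) [IsProbabilityMeasure ρ],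
      ρ.real J = 1 - (ρ.real (Jᶜ ∩ Iic x) + ρ.real (Jᶜ ∩ Ici x)) := fun ρ _ => by
    rw [← measureReal_union (disjoint_left.2 fun y h1 h2 => h1.1
      (le_antisymm (a := x) (b := y) h2.2 h1.2 ▸ hxJ))
      (h0.measurableSet.compl.inter measurableSet_Ici), ← inter_union_distrib_left, Iic_union_Ici,
      inter_univ, probReal_compl_eq_one_sub h0.measurableSet, sub_sub_cancel]
  refine (ENNReal.toReal_le_toReal (measure_ne_top _ _) (measure_ne_top _ _)).1 ?_
  change ν.real J ≤ μ.real J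
  rw [h3, h3]; linarith

lemma cont (μ : Measure ℝ) [IsProbabilityMeasure μ] [NullSingletonClass μ] :
    Continuous fun x => μ.real (Iic x) := by
  simp only [← cdf_eq_real]
  refine continuous_iff_continuousAt.2 fun x =>
    (monotone_cdf μ).continuousAt_iff_leftLim_eq_rightLim.2 ?_
  have h := (cdf μ).measure_singleton x
  rw [measure_cdf, measure_singleton, eq_comm, ENNReal.ofReal_eq_zero] at h
  rw [(cdf μ).rightLim_eq]
  exact le_antisymm ((monotone_cdf μ).leftLim_le le_rfl) (by linarith)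

lemma ae_pos {μ : Measure ℝ} (h : μ (Iic 0) = 0) : ∀ᵐ x ∂μ, 0 < x := by
  simpa [ae_iff, Iic] using h

lemma dom {μ ν : Measure ℝ} (h1 : μ (Iic 0) = 0) (h2 : ν (Iic 0) = 0) {k : ℕ} (hk : k ≠ 0)
    (h : ∀ x, μ (Ioi x) ≤ ν (Ioi x)) : mom μ k ≤ mom ν k ∧ (mom ν k ≤ mom μ k → mom μ k ≠ ∞ →
      ∀ᵐ x ∂volume.restrict (Ioi 0), μ (Ioi x) = ν (Ioi x)) := by
  have hk' : (0 : ℝ) < k := by positivity
  have e : ∀ ρ : Measure ℝ, ρ (Iic 0) = 0 → mom ρ k = ENNReal.ofReal k *
      ∫⁻ t in Ioi 0, ρ (Ioi t) * ENNReal.ofReal (t ^ (k - 1 : ℝ)) := fun ρ hρ => by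
    simpa [mom, Ioi] using lintegral_rpow_eq_lintegral_meas_lt_mul ρ (f := id)
      ((ae_pos hρ).mono fun _ h => h.le) aemeasurable_id hk'
  rw [e μ h1, e ν h2]
  have h0 : ENNReal.ofReal k ≠ 0 := by simpa using hk
  refine ⟨mul_le_mul_right (lintegral_mono fun t => mul_le_mul_left (h t) _) _, fun h3 h4 => ?_⟩
  rw [ENNReal.mul_le_mul_iff_right h0 ENNReal.ofReal_ne_top] at h3
  have := ae_eq_of_ae_le_of_lintegral_le (.of_forall fun t => mul_le_mul_left (h t) _)
    (fun h5 => h4 (by rw [h5, ENNReal.mul_top h0])) (((Antitone.measurable fun a b hab =>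
      measure_mono (Ioi_subset_Ioi hab)).mul (by fun_prop)).aemeasurable) h3
  filter_upwards [this, ae_restrict_mem measurableSet_Ioi] with t ht ht0
  exact (ENNReal.mul_left_inj (by simpa using Real.rpow_pos_of_pos ht0 _) ENNReal.ofReal_ne_top).1 ht

lemma mom_zero {μ : Measure ℝ} (h : μ (Iic 0) = 0) {k : ℕ} (h0 : mom μ k = 0) : μ univ = 0 := by
  rw [mom, lintegral_eq_zero_iff (by fun_prop)] at h0
  rw [Measure.measure_univ_eq_zero, ← ae_eq_bot, ← eventually_false_iff_eq_bot]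
  filter_upwards [h0, ae_pos h] with x h1 h2
  exact not_le.2 (pow_pos h2 k) (by simpa using h1)

lemma frac {a b a' b' : ℝ≥0∞} (h1 : a ≤ a') (h2 : b' ≤ b) (h3 : a + b ≠ 0) (h4 : a + b ≠ ∞)
    (h5 : a' + b' ≠ 0) (h6 : a' + b' ≠ ∞) : a / (a + b) ≤ a' / (a' + b') ∧
      (a < a' → b ≠ 0 → a / (a + b) < a' / (a' + b')) := by
  lift a to ℝ≥0 using (ENNReal.add_ne_top.1 h4).1
  lift b to ℝ≥0 using (ENNReal.add_ne_top.1 h4).2
  lift a' to ℝ≥0 using (ENNReal.add_ne_top.1 h6).1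
  lift b' to ℝ≥0 using (ENNReal.add_ne_top.1 h6).2
  norm_cast at h1 h2 h3 h5
  rw [← ENNReal.coe_add, ← ENNReal.coe_add, ← ENNReal.coe_div h3, ← ENNReal.coe_div h5]
  norm_cast
  replace h3 := pos_iff_ne_zero.2 h3
  replace h5 := pos_iff_ne_zero.2 h5
  rw [div_le_div_iff₀ h3 h5, div_lt_div_iff₀ h3 h5, mul_add, mul_add, mul_comm a a']
  exact ⟨by gcongr, fun h7 h8 => add_lt_add_right ((mul_le_mul_right h2 a).trans_lt
    (mul_lt_mul_of_pos_right h7 (pos_iff_ne_zero.2 h8))) _⟩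

lemma bias_apply (ψ : PMF ℕ) (μ : Measure ℝ) {s : Set ℝ} (hs : MeasurableSet s) :
    bias ψ μ s = ∑' k, ψ k * (mom (μ.restrict s) k / mom μ k) := by
  simp only [bias, Measure.sum_apply _ hs, Measure.smul_apply, withDensity_apply _ hs, smul_eq_mul,
    mom, div_eq_mul_inv, mul_assoc, mul_comm]

lemma beta_cdf {w s : ℝ} (hw : 0 < w) (hs : 0 < s) :
    betaMeasure w 1 (Iic s) = ENNReal.ofReal (min s 1 ^ w) := by
  have hb : beta w 1 = 1 / w := by
    rw [beta, Real.Gamma_add_one hw.ne', Real.Gamma_one]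
    field_simp [(Real.Gamma_pos_of_pos hw).ne']
  have hm : 0 < min s 1 := lt_min hs one_pos
  rw [betaMeasure, withDensity_apply _ measurableSet_Iic, ← lintegral_indicator measurableSet_Iic,
    lintegral_congr_ae (g := (Ioo 0 (min s 1)).indicator fun x => ENNReal.ofReal (w * x ^ (w - 1))),
    lintegral_indicator measurableSet_Ioo, ← ofReal_integral_eq_lintegral_ofReal,
    ← integral_Ioc_eq_integral_Ioo, ← intervalIntegral.integral_of_le hm.le,
    intervalIntegral.integral_const_mul, integral_rpow (.inl (by linarith))]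
  · congr 1; simp [hw.ne']; field_simp
  · exact IntegrableOn.mono_set ((intervalIntegral.intervalIntegrable_rpow'
      (by linarith)).1.const_mul w) Ioo_subset_Ioc_self
  · filter_upwards [ae_restrict_mem measurableSet_Ioo] with x hx
    exact mul_nonneg hw.le (Real.rpow_nonneg hx.1.le _)
  · filter_upwards [compl_mem_ae_iff.2 (measure_singleton s)] with x (hx : x ≠ s)
    simp only [indicator, mem_Iic, mem_Ioo, lt_min_iff, betaPDF_eq, hb, lt_iff_le_and_ne.trans (and_iff_left hx)]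
    by_cases h1 : x ≤ s <;> by_cases h2 : 0 < x <;> by_cases h3 : x < 1 <;> simp [h1, h2, h3]

namespace Sol
variable {w : ℝ} (hw : 0 < w) {ψ : PMF ℕ} {μ ν : Measure ℝ} (h : Sol w ψ μ)
include h

lemma m0 (k : ℕ) : mom μ k ≠ 0 := fun h0 => by
  have := h.1
  simpa using mom_zero h.2.1 h0

lemma prob : IsProbabilityMeasure (bias ψ μ) := ⟨by
  rw [bias_apply _ _ .univ, Measure.restrict_univ, ← ψ.tsum_coe]
  refine tsum_congr fun k => ?_
  by_cases hk : ψ k = 0
  · simp [hk]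
  · rw [ENNReal.div_self (h.m0 k) (h.2.2.1 k hk), mul_one]⟩

omit h in
lemma ac : bias ψ μ ≪ μ := Measure.AbsolutelyContinuous.mk fun s hs h0 => by
  simp [bias_apply _ _ hs, Measure.restrict_eq_zero.2 h0, mom]

lemma app {s : Set ℝ} (hs : MeasurableSet s) :
    μ s = ∫⁻ y, betaMeasure w 1 {v | v * y ∈ s} ∂bias ψ μ := by
  have := h.prob
  have : SFinite (betaMeasure w 1) := by unfold betaMeasure; infer_instance
  conv_lhs => rw [h.2.2.2, Measure.map_apply (by fun_prop) hs,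
    Measure.prod_apply_symm ((by fun_prop : Measurable fun p : ℝ × ℝ => p.1 * p.2) hs)]
  rfl

lemma atom : NullSingletonClass μ := ⟨fun x => by
  rw [h.app (measurableSet_singleton x), lintegral_congr_ae (g := 0), lintegral_zero_fun]
  filter_upwards [ac.ae_le (ae_pos h.2.1)] with y hy
  exact measure_mono_null (t := {x / y}) (fun v hv => eq_div_of_mul_eq hy.ne' hv)
    (withDensity_absolutelyContinuous _ _ (measure_singleton _))⟩

lemma atom' : NullSingletonClass (bias ψ μ) :=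
  ⟨fun x => ac (h.atom.measure_singleton x)⟩

include hw

omit h in
lemma intg (B : Measure ℝ) [IsFiniteMeasure B] {x : ℝ} (hx : 0 < x) :
    Integrable (fun y => max x y ^ (-w)) B :=
  .of_mem_Icc 0 (x ^ (-w)) (by fun_prop) (.of_forall fun y => ⟨by positivity,
    Real.rpow_le_rpow_of_nonpos hx (le_max_left _ _) (by linarith)⟩)

lemma cdf {x : ℝ} (hx : 0 < x) : μ.real (Iic x) = x ^ w * ∫ y, max x y ^ (-w) ∂bias ψ μ := by
  have := h.prob
  rw [← integral_const_mul, Measure.real, h.app measurableSet_Iic, lintegral_congr_ae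
    (g := fun y => ENNReal.ofReal (x ^ w * max x y ^ (-w))), ← ofReal_integral_eq_lintegral_ofReal
    ((intg hw _ hx).const_mul _) (.of_forall fun y => by positivity), ENNReal.toReal_ofReal
    (integral_nonneg fun y => by positivity)]
  filter_upwards [ac.ae_le (ae_pos h.2.1)] with y hy
  rw [show {v | v * y ∈ Iic x} = Iic (x / y) from Set.ext fun v => (le_div_iff₀ hy).symm,
    beta_cdf hw (div_pos hx hy), Real.rpow_neg (by positivity), ← div_eq_mul_inv,
    ← Real.div_rpow hx.le (by positivity)]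
  congr 2
  rcases le_total x y with h1 | h1
  · rw [max_eq_right h1, min_eq_left ((div_le_one hy).2 h1)]
  · rw [max_eq_left h1, min_eq_right ((one_le_div hy).2 h1), div_self hx.ne']

omit h in
lemma sand (B : Measure ℝ) [IsFiniteMeasure B] {x z : ℝ} (hx : 0 < x) (hz : x < z) :
    (x ^ (-w) - z ^ (-w)) * B.real (Iic x) ≤ ∫ y, max x y ^ (-w) ∂B - ∫ y, max z y ^ (-w) ∂B ∧
    ∫ y, max x y ^ (-w) ∂B - ∫ y, max z y ^ (-w) ∂B ≤ (x ^ (-w) - z ^ (-w)) * B.real (Iic z) := by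
  have hi := (intg hw B hx).sub (intg hw B (hx.trans hz))
  have mono : ∀ a b : ℝ, 0 < a → a ≤ b → b ^ (-w) ≤ a ^ (-w) := fun a b ha hab =>
    Real.rpow_le_rpow_of_nonpos ha hab (by linarith)
  rw [← integral_sub (intg hw B hx) (intg hw B (hx.trans hz)), mul_comm, mul_comm _ (B.real _),
    ← smul_eq_mul, ← smul_eq_mul, ← integral_indicator_const _ measurableSet_Iic,
    ← integral_indicator_const _ measurableSet_Iic]
  refine ⟨integral_mono ((integrable_const _).indicator measurableSet_Iic) hi fun y => ?_,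
    integral_mono hi ((integrable_const _).indicator measurableSet_Iic) fun y => ?_⟩ <;>
    simp only [indicator, mem_Iic] <;> split_ifs with h1
  · rw [max_eq_left h1, max_eq_left (h1.trans hz.le)]
  · exact sub_nonneg.2 (mono _ _ (by positivity) (max_le_max_right _ hz.le))
  · rw [max_eq_left h1]; linarith [mono _ _ hx (le_max_left x y)]
  · rw [max_eq_right (not_le.1 h1).le, max_eq_right (hz.trans (not_le.1 h1)).le, sub_self]

lemma dich (h' : Sol w ψ ν) (h0 : ψ 0 = 0) : (∀ x, ν.real (Iic x) ≤ μ.real (Iic x)) ∨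
    ∀ x, μ.real (Iic x) ≤ ν.real (Iic x) := by
  have := h.1; have := h'.1; have := h.prob; have := h'.prob
  have := h.atom; have := h'.atom; have := h.atom'; have := h'.atom'
  set O := {x | ν.real (Iic x) < μ.real (Iic x)} with hOd
  have hO : IsOpen O := isOpen_lt (cont ν) (cont μ)
  have hp : ∀ x ∈ O, 0 < x := fun x hx => by
    by_contra h1
    have : μ.real (Iic x) = 0 := by
      rw [Measure.real, measure_mono_null (Iic_subset_Iic.2 (not_lt.1 h1)) h.2.1]; rfl
    exact not_le.2 (show ν.real (Iic x) < μ.real (Iic x) from hx) (this ▸ measureReal_nonneg)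
  have d : ∀ x z : ℝ, 0 < x → x < z → 0 < x ^ (-w) - z ^ (-w) := fun x z hx hz =>
    sub_pos.2 (Real.rpow_lt_rpow_of_neg hx hz (by linarith))
  have iO : ∀ x, 0 < x → (x ∈ O ↔ ∫ y, max x y ^ (-w) ∂bias ψ ν < ∫ y, max x y ^ (-w) ∂bias ψ μ) :=
    fun x hx => by
      rw [hOd, mem_ofPred_eq, h.cdf hw hx, h'.cdf hw hx, mul_lt_mul_iff_right₀ (by positivity)]
  have s1 : bias ψ ν O ≤ bias ψ μ O := by
    refine comp _ _ hO (fun a b hab ha hs => ?_) fun a b hab hb hs => ?_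
    · rcases le_or_gt a 0 with h1 | h1
      · rw [Measure.real, ac (measure_mono_null (Iic_subset_Iic.2 h1) h.2.1)]
        exact measureReal_nonneg
      refine ge_of_tendsto ((cont (bias ψ ν)).continuousWithinAt (s := Ioi a)) ?_
      filter_upwards [Ioo_mem_nhdsGT hab] with x hx
      have := (iO x (h1.trans hx.1)).1 (hs hx)
      have := not_lt.1 (mt (iO a h1).2 ha)
      refine le_of_mul_le_mul_left ?_ (d a x h1 hx.1)
      linarith [(sand hw (bias ψ μ) h1 hx.1).1, (sand hw (bias ψ ν) h1 hx.1).2]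
    · refine le_of_tendsto ((cont (bias ψ ν)).continuousWithinAt (s := Iio b)) ?_
      filter_upwards [Ioo_mem_nhdsLT hab] with x hx
      have h1 := hp x (hs hx)
      have := (iO x h1).1 (hs hx)
      have := not_lt.1 (mt (iO b (h1.trans hx.2)).2 hb)
      refine le_of_mul_le_mul_left ?_ (d x b h1 hx.2)
      linarith [(sand hw (bias ψ μ) h1 hx.2).2, (sand hw (bias ψ ν) h1 hx.2).1]
  have lim : ∀ a b, a < b → Ioo a b ⊆ O → ν.real (Iic a) ≤ μ.real (Iic a) := fun a b hab hs =>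
    le_of_tendsto_of_tendsto ((cont ν).continuousWithinAt (s := Ioi a))
      ((cont μ).continuousWithinAt (s := Ioi a))
      (mem_of_superset (Ioo_mem_nhdsGT hab) fun x hx =>
        show ν.real (Iic x) ≤ μ.real (Iic x) from le_of_lt (hs hx))
  have s2 : ∀ x, μ.restrict O (Ioi x) ≤ ν.restrict O (Ioi x) := fun x => by
    rw [Measure.restrict_apply measurableSet_Ioi, Measure.restrict_apply measurableSet_Ioi]
    refine comp _ _ (isOpen_Ioi.inter hO) (fun a b hab _ hs => lim a b hab fun y hy => (hs hy).2)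
      fun a b hab hb hs => not_lt.1 fun h1 => hb ⟨?_, h1⟩
    obtain ⟨y, hy⟩ := nonempty_Ioo.2 hab
    exact lt_trans (hs hy).1 hy.2
  have s3 : ∀ x, ν.restrict Oᶜ (Ioi x) ≤ μ.restrict Oᶜ (Ioi x) := fun x => by
    have := comp ν μ (isOpen_Iio.union hO) (U := Iio x ∪ O) (fun a b hab ha hs => lim a b hab
      fun y hy => (hs hy).resolve_left fun h1 => ha (.inl (lt_trans hy.1 h1)))
      fun a b _ hb _ => not_lt.1 fun h1 => hb (.inr h1)
    have hm := (isOpen_Iio.union hO (s₁ := Iio x)).measurableSet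
    rw [measure_congr Ioi_ae_eq_Ici, measure_congr Ioi_ae_eq_Ici, Measure.restrict_apply
      measurableSet_Ici, Measure.restrict_apply measurableSet_Ici, ← compl_Iio, ← compl_union,
      prob_compl_eq_one_sub hm, prob_compl_eq_one_sub hm]
    exact tsub_le_tsub_left this 1
  have r0 : ∀ (ρ : Measure ℝ) s, ρ (Iic 0) = 0 → ρ.restrict s (Iic 0) = 0 := fun ρ s h =>
    Measure.absolutelyContinuous_restrict h
  have sp : ∀ (ρ : Measure ℝ) k, mom ρ k = mom (ρ.restrict O) k + mom (ρ.restrict Oᶜ) k :=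
    fun ρ k => (lintegral_add_compl _ hO.measurableSet).symm
  have tail : ∀ (ρ ρ' : Measure ℝ) [IsProbabilityMeasure ρ] [IsProbabilityMeasure ρ'] x,
      ρ (Ioi x) ≤ ρ' (Ioi x) → ρ'.real (Iic x) ≤ ρ.real (Iic x) := fun ρ ρ' _ _ x h1 => by
    have := ENNReal.toReal_mono (measure_ne_top _ _) h1
    rw [← compl_Iic, ← Measure.real, ← Measure.real, probReal_compl_eq_one_sub measurableSet_Iic,
      probReal_compl_eq_one_sub measurableSet_Iic] at this
    linarith
  have fr := fun k (hk : ψ k ≠ 0) => frac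
    (dom (r0 μ O h.2.1) (r0 ν O h'.2.1) (k := k) (fun e => hk (e ▸ h0)) s2).1
    (dom (r0 ν Oᶜ h'.2.1) (r0 μ Oᶜ h.2.1) (k := k) (fun e => hk (e ▸ h0)) s3).1
    (sp μ k ▸ h.m0 k) (sp μ k ▸ h.2.2.1 k hk) (sp ν k ▸ h'.m0 k) (sp ν k ▸ h'.2.2.1 k hk)
  simp only [← sp] at fr
  obtain ⟨k, hk⟩ := ψ.support_nonempty
  by_cases c1 : mom (μ.restrict Oᶜ) k = 0
  · refine .inl fun x => tail _ _ x ?_
    have := mom_zero (r0 μ _ h.2.1) c1
    rw [Measure.restrict_apply_univ] at this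
    calc μ (Ioi x) = μ.restrict O (Ioi x) := by
          rw [Measure.restrict_eq_self_of_ae_mem (s := O) this]
      _ ≤ _ := (s2 x).trans (Measure.restrict_apply_le _ _)
  by_cases c2 : mom (μ.restrict O) k < mom (ν.restrict O) k
  · refine absurd s1 (not_le.2 ?_)
    have hne := measure_ne_top (bias ψ μ) O
    rw [bias_apply _ _ hO.measurableSet] at hne ⊢
    rw [bias_apply _ _ hO.measurableSet]
    refine ENNReal.tsum_lt_tsum (i := k) hne (fun j => ?_)
      (ENNReal.mul_lt_mul_right hk (ψ.apply_ne_top k) ((fr k hk).2 c2 c1))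
    by_cases hj : ψ j = 0
    · simp [hj]
    · exact mul_le_mul_right (fr j hj).1 _
  · have := (dom (r0 μ O h.2.1) (r0 ν O h'.2.1) (k := k) (fun e => hk (e ▸ h0)) s2).2 (not_lt.1 c2)
      (ne_top_of_le_ne_top (h.2.2.1 k hk) (sp μ k ▸ le_self_add))
    have h1 : ∀ᵐ x, x ∉ O := by
      filter_upwards [(ae_restrict_iff' measurableSet_Ioi).1 this] with x hx hxO
      refine not_le.2 hxO (tail _ _ x ?_)
      rw [← Measure.restrict_add_restrict_compl (μ := ν) hO.measurableSet,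
        ← Measure.restrict_add_restrict_compl (μ := μ) hO.measurableSet]
      exact add_le_add (hx (hp x hxO)).ge (s3 x)
    have := (hO.measure_eq_zero_iff volume).1 (measure_eq_zero_iff_ae_notMem.2 h1)
    exact .inr fun x => not_lt.1 fun hx => (this ▸ hx : x ∈ (∅ : Set ℝ))

omit hw h in
lemma mom_map {c : ℝ} (hc : 0 < c) (ρ : Measure ℝ) (k : ℕ) :
    mom (ρ.map (c * ·)) k = ENNReal.ofReal (c ^ k) * mom ρ k := by
  rw [mom, lintegral_map (by fun_prop) (by fun_prop), mom, ← lintegral_const_mul _ (by fun_prop)]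
  simp only [mul_pow, ENNReal.ofReal_mul (pow_pos hc k).le]

omit hw in
lemma scale {c : ℝ} (hc : 0 < c) : Sol w ψ (μ.map (c * ·)) := by
  have := h.1; have := h.prob
  have hm : Measurable fun x : ℝ => c * x := by fun_prop
  have e : bias ψ (μ.map (c * ·)) = (bias ψ μ).map (c * ·) := Measure.ext fun s hs => by
    rw [Measure.map_apply hm hs, bias_apply _ _ hs, bias_apply _ _ (hm hs),
      Measure.restrict_map hm hs]
    simp only [mom_map hc, ENNReal.mul_div_mul_left _ _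
      (ENNReal.ofReal_pos.2 (pow_pos hc _)).ne' ENNReal.ofReal_ne_top]
  refine ⟨Measure.isProbabilityMeasure_map hm.aemeasurable, ?_, fun k hk => ?_, ?_⟩
  · rw [Measure.map_apply hm measurableSet_Iic]
    exact measure_mono_null (fun x hx => nonpos_of_mul_nonpos_right hx hc) h.2.1
  · rw [mom_map hc]; exact ENNReal.mul_ne_top ENNReal.ofReal_ne_top (h.2.2.1 k hk)
  · have : SFinite (betaMeasure w 1) := by unfold betaMeasure; infer_instance
    rw [e, ← Measure.map_id (μ := betaMeasure w 1), Measure.map_prod_map _ _ measurable_id hm,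
      Measure.map_map (by fun_prop) (by fun_prop)]
    conv_lhs => rw [h.2.2.2, Measure.map_map hm (by fun_prop)]
    congr 1; ext p; simp [mul_left_comm]

omit hw in
lemma eq_of (h' : Sol w ψ ν) {k : ℕ} (hk : k ≠ 0) (hk' : ψ k ≠ 0) (e : mom μ k = mom ν k)
    (hle : ∀ x, ν.real (Iic x) ≤ μ.real (Iic x)) : μ = ν := by
  have := h.1; have := h'.1; have := h.atom; have := h'.atom
  have t : ∀ (ρ : Measure ℝ) [IsProbabilityMeasure ρ] x,
      ρ (Ioi x) = ENNReal.ofReal (1 - ρ.real (Iic x)) := fun ρ _ x => by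
    rw [← probReal_compl_eq_one_sub measurableSet_Iic, ofReal_measureReal, compl_Iic]
  have h1 := (dom h.2.1 h'.2.1 hk fun x => by
    rw [t, t]; exact ENNReal.ofReal_le_ofReal (by linarith [hle x])).2 e.ge (h.2.2.1 k hk')
  have h2 := Measure.eqOn_open_of_ae_eq (f := fun x => μ.real (Iic x))
    (g := fun x => ν.real (Iic x)) (h1.mono fun x hx => by
      rw [t, t, ENNReal.ofReal_eq_ofReal_iff (sub_nonneg.2 measureReal_le_one)
        (sub_nonneg.2 measureReal_le_one)] at hx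
      exact sub_right_injective hx) isOpen_Ioi (cont μ).continuousOn (cont ν).continuousOn
  refine Measure.ext_of_Iic _ _ fun x => ?_
  rcases le_or_gt x 0 with hx | hx
  · rw [measure_mono_null (Iic_subset_Iic.2 hx) h.2.1,
      measure_mono_null (Iic_subset_Iic.2 hx) h'.2.1]
  · exact (ENNReal.toReal_eq_toReal_iff' (measure_ne_top _ _) (measure_ne_top _ _)).1 (h2 hx)
end Sol

theorem result (w : ℝ) (hw : 0 < w) (ψ : PMF ℕ) (h0 : ψ 0 = 0) (μ ν : Measure ℝ)
    (h : Sol w ψ μ) (h' : Sol w ψ ν) : ∃ c : ℝ, 0 < c ∧ ν = μ.map (c * ·) := by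
  obtain ⟨k, hk⟩ := ψ.support_nonempty
  have hk0 : k ≠ 0 := fun e => hk (e ▸ h0)
  have hr : 0 < (mom ν k / mom μ k).toReal := ENNReal.toReal_pos
    (ENNReal.div_ne_zero.2 ⟨h'.m0 k, h.2.2.1 k hk⟩) (ENNReal.div_ne_top (h'.2.2.1 k hk) (h.m0 k))
  have hc := Real.rpow_pos_of_pos hr (k : ℝ)⁻¹
  have h1 := h.scale hc
  have e : mom (μ.map ((mom ν k / mom μ k).toReal ^ (k : ℝ)⁻¹ * ·)) k = mom ν k := by
    rw [Sol.mom_map hc, Real.rpow_inv_natCast_pow hr.le hk0, ENNReal.ofReal_toReal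
      (ENNReal.div_ne_top (h'.2.2.1 k hk) (h.m0 k)),
      ENNReal.div_mul_cancel (h.m0 k) (h.2.2.1 k hk)]
  refine ⟨_, hc, ?_⟩
  rcases h1.dich hw h' h0 with h2 | h2
  · exact (h1.eq_of h' hk0 hk e h2).symm
  · exact h'.eq_of h1 hk0 hk e.symm h2

end Pool.Agent.Results.MP_ec0ea5_pr.Unique
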